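import Mathlib

set_option autoImplicit false

namespace Pool.Agent.Results.MP_6fd06d_co.NotStrictRobust

open scoped MatrixGroups LinearAlgebra.Projectivization

section defs

variable (G Ω : Type*) [Group G] [MulAction G Ω]

/-- The set of derangements of `G` acting on `Ω`. -/
def Der : Set G := {g | ∀ x : Ω, g • x ≠ x}

/-- The derangements mapping `i` to `j`. -/
def DerMap (i j : Ω) : Set G := {g | g ∈ Der G Ω ∧ g • i = j}

/-- The Cayley graph `Cay(G, S)`: `g` is adjacent to `h` iff `g ≠ h` and `h * g⁻¹ ∈ S` (for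
inverse-closed `S`, where the second alternative is redundant). -/
def cayley (G : Type*) [Group G] (S : Set G) : SimpleGraph G where
  Adj g h := g ≠ h ∧ (h * g⁻¹ ∈ S ∨ g * h⁻¹ ∈ S)
  symm := ⟨fun _ _ h => ⟨h.1.symm, h.2.symm⟩⟩
  loopless := ⟨fun _ h => h.1 rfl⟩

/-- Strict EKR robustness: for every inverse-closed set `D` of derangements that contains no
`D_{i → j} ∪ D_{j → i}` with `i ≠ j`, the independence number of `Cay(G, Der(G) \ D)` equals
`|G| / n`, that is, `α * n = |G|`. -/
def StrictEKRRobust : Prop :=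
  ∀ D : Set G, D ⊆ Der G Ω → (∀ g ∈ D, g⁻¹ ∈ D) →
    (∀ i j : Ω, i ≠ j → ¬ (DerMap G Ω i j ∪ DerMap G Ω j i ⊆ D)) →
    (cayley G (Der G Ω \ D)).indepNum * Nat.card Ω = Nat.card G

end defs

/-- A general obstruction: a subgroup `H` of index at most `2` such that for all `i ≠ j` some
derangement outside `H` maps `i` to `j`. -/
lemma obstruction (G Ω : Type*) [Group G] [MulAction G Ω] [Finite G] (H : Subgroup G)
    (hH : H.index ≤ 2) (hΩ : 2 < Nat.card Ω)
    (hder : ∀ i j : Ω, i ≠ j → ∃ g ∈ DerMap G Ω i j, g ∉ H) : ¬ StrictEKRRobust G Ω := by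
  intro hrob
  have h1 := hrob (Der G Ω ∩ H) Set.inter_subset_left ?_ ?_
  · classical
    have : Fintype G := Fintype.ofFinite G
    have hind : (cayley G (Der G Ω \ (Der G Ω ∩ H))).IsIndepSet
        ((Set.toFinset (H : Set G) : Finset G) : Set G) := by
      rw [Set.coe_toFinset]
      rintro g hg h hh - ⟨-, hadj⟩
      rcases hadj with hadj | hadj
      · exact hadj.2 ⟨hadj.1, H.mul_mem hh (H.inv_mem hg)⟩
      · exact hadj.2 ⟨hadj.1, H.mul_mem hg (H.inv_mem hh)⟩
    have hle := hind.card_le_indepNum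
    have hcard : (Set.toFinset (H : Set G)).card = Nat.card H := by
      rw [Set.toFinset_card, Nat.card_eq_fintype_card]
      rfl
    rw [hcard] at hle
    have hidx := H.card_mul_index
    have hpos : 0 < Nat.card G := Nat.card_pos
    have hposH : 0 < Nat.card H := Nat.card_pos
    have h2 : Nat.card G ≤ Nat.card H * 2 := by
      rw [← hidx]; exact Nat.mul_le_mul_left _ hH
    have h3 : Nat.card H * 3 ≤ (cayley G (Der G Ω \ (Der G Ω ∩ H))).indepNum * Nat.card Ω :=
      Nat.mul_le_mul hle hΩ
    omega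
  · rintro g ⟨hg, hgH⟩
    refine ⟨fun x hx => hg x ?_, H.inv_mem hgH⟩
    calc g • x = g • (g⁻¹ • x) := by rw [hx]
      _ = x := smul_inv_smul g x
  · intro i j hij hsub
    obtain ⟨g, hg, hgH⟩ := hder i j hij
    exact hgH (hsub (Or.inl hg)).2

/-- In a finite field of odd order, for every non-square `δ` there is `t` such that `t² - 4δ` is
not a square. -/
lemma exists_trace {K : Type*} [Field K] [Finite K] (h20 : (2 : K) ≠ 0) {δ : K}
    (hδ : ¬ IsSquare δ) : ∃ t : K, ¬ IsSquare (t ^ 2 - 4 * δ) := by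
  by_contra hcon
  push Not at hcon
  have hk : ∀ k : ℕ, IsSquare ((k : K) * (-(4 * δ))) := by
    intro k
    induction k with
    | zero => simp
    | succ k ih =>
      obtain ⟨s, hs⟩ := ih
      have := hcon s
      have e : ((k + 1 : ℕ) : K) * (-(4 * δ)) = s ^ 2 - 4 * δ := by
        push_cast
        rw [add_mul, hs]; ring
      rw [e]; exact this
  obtain ⟨p, hp⟩ := CharP.exists K
  have hp1 : p ≠ 0 := CharP.char_ne_zero_of_finite K p
  have h1 := hk (p - 1)
  have hcast : ((p - 1 : ℕ) : K) = -1 := by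
    rw [Nat.cast_sub (by omega)]
    simp
  rw [hcast] at h1
  have h2 : IsSquare (4 * δ) := by
    convert h1 using 1; ring
  obtain ⟨s, hs⟩ := h2
  apply hδ
  refine ⟨s / 2, ?_⟩
  field_simp
  linear_combination hs

section PGL

variable {K : Type*} [Field K] [Fintype K] [DecidableEq K]

/-- The quadratic character of the determinant, on `PGL(2, K)`. -/
noncomputable def chi : PGL(2, K) →* ℤˣ :=
  Matrix.ProjGenLinGroup.lift
    ((MulChar.toUnitHom (quadraticChar K)).comp Matrix.GeneralLinearGroup.det) <| by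
      ext u
      simp only [MonoidHom.comp_apply, MulChar.coe_toUnitHom, MonoidHom.one_apply]
      have : ((Matrix.GeneralLinearGroup.det (Matrix.GeneralLinearGroup.scalar (Fin 2) u) : Kˣ) : K)
          = (u : K) ^ 2 := by
        simp
      rw [this]
      exact quadraticChar_sq_one' u.ne_zero

lemma chi_mk (g : GL (Fin 2) K) :
    ((chi (Matrix.ProjGenLinGroup.mk g) : ℤˣ) : ℤ) = quadraticChar K (g.det : K) := by
  simp [chi]

/-- The companion matrix with determinant `δ` and trace `t`. -/
noncomputable def comp (δ t : K) (hδ : δ ≠ 0) : GL (Fin 2) K :=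
  Matrix.GeneralLinearGroup.mkOfDetNeZero !![0, -δ; 1, t] (by simpa using hδ)

omit [Fintype K] [DecidableEq K] in
lemma comp_der {δ t : K} (hδ : δ ≠ 0) (h : ¬ IsSquare (t ^ 2 - 4 * δ)) :
    (Matrix.ProjGenLinGroup.mk (comp δ t hδ) : PGL(2, K)) ∈ Der PGL(2, K) (ℙ K (Fin 2 → K)) := by
  intro x
  induction x using Projectivization.ind with | _ v hv =>
  intro hx
  rw [Projectivization.PGL.mk_smul_mk, Projectivization.mk_eq_mk_iff'] at hx
  obtain ⟨c, hc⟩ := hx
  have e0 := congrFun hc 0
  have e1 := congrFun hc 1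
  change c * v 0 = ((comp δ t hδ : Matrix (Fin 2) (Fin 2) K).mulVec v) 0 at e0
  change c * v 1 = ((comp δ t hδ : Matrix (Fin 2) (Fin 2) K).mulVec v) 1 at e1
  simp only [comp, Matrix.GeneralLinearGroup.mkOfDetNeZero] at e0 e1
  simp [Matrix.mulVec, dotProduct, Fin.sum_univ_two] at e0 e1
  have hv1 : v 1 ≠ 0 := by
    intro h1
    apply hv
    rw [h1] at e1
    ext i
    fin_cases i
    · simpa using e1.symm
    · simpa using h1
  apply h
  refine ⟨2 * c - t, ?_⟩
  apply mul_left_cancel₀ hv1
  have : v 0 = (c - t) * v 1 := by linear_combination -e1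
  rw [this] at e0
  linear_combination -4 * e0

omit [Fintype K] [DecidableEq K] in
lemma toPGL_smul (g : Matrix.SpecialLinearGroup (Fin 2) K) (x : ℙ K (Fin 2 → K)) :
    (Matrix.SpecialLinearGroup.toPGL g : PGL(2, K)) • x = g • x := by
  induction x using Projectivization.ind with | _ v hv =>
  rfl

lemma chi_conj (a b : PGL(2, K)) : chi (a * b * a⁻¹) = chi b := by
  rw [map_mul, map_mul, map_inv, mul_comm (chi a), mul_assoc, mul_inv_cancel, mul_one]

lemma exists_der (h2 : ringChar K ≠ 2) (i j : ℙ K (Fin 2 → K)) (hij : i ≠ j) :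
    ∃ g ∈ DerMap PGL(2, K) (ℙ K (Fin 2 → K)) i j, g ∉ (chi (K := K)).ker := by
  obtain ⟨δ, hδ⟩ := FiniteField.exists_nonsquare h2
  have hδ0 : δ ≠ 0 := by
    rintro rfl
    exact hδ (by simp)
  obtain ⟨t, ht⟩ := exists_trace (Ring.two_ne_zero h2) hδ
  have hder := comp_der hδ0 ht
  set m : PGL(2, K) := Matrix.ProjGenLinGroup.mk (comp δ t hδ0) with hm
  have hchi : chi m ≠ 1 := by
    intro h1
    have h3 := chi_mk (comp δ t hδ0)
    rw [← hm, h1] at h3
    have h4 : ((comp δ t hδ0).det : K) = δ := by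
      simp [comp, Matrix.GeneralLinearGroup.mkOfDetNeZero, Matrix.det_fin_two]
    rw [h4] at h3
    have h5 : quadraticChar K δ = 1 := by rw [← h3]; rfl
    exact hδ ((quadraticChar_one_iff_isSquare hδ0).mp h5)
  -- a point and its image
  have hx : (m • i) ≠ i := hder i
  have h2t : MulAction.IsMultiplyPretransitive (Matrix.SpecialLinearGroup (Fin 2) K)
    (ℙ K (Fin 2 → K)) 2 := inferInstance
  rw [MulAction.is_two_pretransitive_iff] at h2t
  obtain ⟨s, hs1, hs2⟩ := h2t hx.symm hij
  set a : PGL(2, K) := Matrix.SpecialLinearGroup.toPGL s with ha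
  have ha1 : a • i = i := by rw [ha, toPGL_smul]; exact hs1
  have ha2 : a • (m • i) = j := by rw [ha, toPGL_smul]; exact hs2
  have ha3 : a⁻¹ • i = i := by rw [inv_smul_eq_iff]; exact ha1.symm
  refine ⟨a * m * a⁻¹, ⟨?_, ?_⟩, ?_⟩
  · intro y hy
    apply hder (a⁻¹ • y)
    rw [mul_smul, mul_smul] at hy
    rw [eq_inv_smul_iff]
    exact hy
  · rw [mul_smul, mul_smul, ha3, ha2]
  · rw [MonoidHom.mem_ker, chi_conj]
    exact hchi

lemma index_le : (chi (K := K)).ker.index ≤ 2 := by
  rw [Subgroup.index_ker]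
  calc Nat.card (chi (K := K)).range ≤ Nat.card ℤˣ :=
        Nat.card_le_card_of_injective _ Subtype.val_injective
    _ = 2 := by rw [Nat.card_eq_fintype_card]; decide

end PGL

/-- **Main result.** For every finite field `K` of odd characteristic, the group `PGL(2, K)` in
its natural action on the points of the projective line over `K` is not strict EKR robust. -/
theorem result (K : Type*) [Field K] [Finite K] (hK : ringChar K ≠ 2) :
    ¬ StrictEKRRobust PGL(2, K) (ℙ K (Fin 2 → K)) := by
  classical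
  have := Fintype.ofFinite K
  have hfin : Finite PGL(2, K) := by
    have := Finite.of_surjective _ (Matrix.ProjGenLinGroup.mk_surjective (n := Fin 2) (R := K))
    exact this
  apply obstruction PGL(2, K) (ℙ K (Fin 2 → K)) (chi (K := K)).ker index_le
  · have := Projectivization.card_of_finrank_two K (Fin 2 → K) (by simp)
    rw [this]
    have h3 : 1 < Nat.card K := Finite.one_lt_card
    omega
  · exact exists_der hK

end Pool.Agent.Results.MP_6fd06d_co.NotStrictRobust
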